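import Pool.Agent.Lib_helper68.MC.Defs

/-! Project MC (MP_b08f5f_an, microcanonical), block MX: mixtures. -/

set_option autoImplicit false

namespace Pool.Agent.Lib_helper68.MC

open MeasureTheory Filter Topology Set
open scoped ComplexConjugate ENNReal NNReal

noncomputable section

/-- convexity of `u log u`, pointwise -/
theorem MX_upper {a b t : ℝ} (ha : 0 ≤ a) (hb : 0 ≤ b) (h0 : 0 ≤ t) (h1 : t ≤ 1) :
    ((1 - t) * a + t * b) * Real.log ((1 - t) * a + t * b) ≤
      (1 - t) * (a * Real.log a) + t * (b * Real.log b) := by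
  have h := Real.convexOn_mul_log.2 (mem_Ici.mpr ha) (mem_Ici.mpr hb)
    (sub_nonneg.mpr h1) h0 (by ring)
  simpa only [smul_eq_mul] using h

/-- strict convexity of `u log u`, pointwise -/
theorem MX_upper_strict {a b t : ℝ} (ha : 0 ≤ a) (hb : 0 ≤ b) (h0 : 0 < t) (h1 : t < 1)
    (hab : a ≠ b) :
    ((1 - t) * a + t * b) * Real.log ((1 - t) * a + t * b) <
      (1 - t) * (a * Real.log a) + t * (b * Real.log b) := by
  have h := Real.strictConvexOn_mul_log.2 (mem_Ici.mpr ha) (mem_Ici.mpr hb) hab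
    (sub_pos.mpr h1) h0 (by ring)
  simpa only [smul_eq_mul] using h

/-- one term of the lower bound: `u log u ≤ u log m` for `0 ≤ u ≤ m` -/
theorem MX_term {u m : ℝ} (hu : 0 ≤ u) (hm : u ≤ m) : u * Real.log u ≤ u * Real.log m := by
  rcases hu.eq_or_lt with h | h
  · rw [← h]; simp
  · exact mul_le_mul_of_nonneg_left (Real.log_le_log h hm) hu

/-- `(c a) log (c a) = c (a log a) + (c log c) a` -/
theorem MX_mul_log (c a : ℝ) :
    (c * a) * Real.log (c * a) = c * (a * Real.log a) + c * Real.log c * a := by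
  by_cases hc : c = 0
  · simp [hc]
  by_cases ha : a = 0
  · simp [ha]
  rw [Real.log_mul hc ha]
  ring

/-- lower bound for `m log m` -/
theorem MX_lower {a b t : ℝ} (ha : 0 ≤ a) (hb : 0 ≤ b) (h0 : 0 ≤ t) (h1 : t ≤ 1) :
    (1 - t) * (a * Real.log a) + (1 - t) * Real.log (1 - t) * a +
        (t * (b * Real.log b) + t * Real.log t * b) ≤
      ((1 - t) * a + t * b) * Real.log ((1 - t) * a + t * b) := by
  have hu : 0 ≤ (1 - t) * a := mul_nonneg (by linarith) ha
  have hv : 0 ≤ t * b := mul_nonneg h0 hb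
  have e1 := MX_term hu (m := (1 - t) * a + t * b) (by linarith)
  have e2 := MX_term hv (m := (1 - t) * a + t * b) (by linarith)
  rw [MX_mul_log] at e1 e2
  calc _ ≤ ((1 - t) * a) * Real.log ((1 - t) * a + t * b) +
        (t * b) * Real.log ((1 - t) * a + t * b) := add_le_add e1 e2
    _ = _ := by ring

/-- the mixture of the entropy densities is integrable -/
theorem MX_int_up {ρ ρ' : ℂ → ℝ} (h : Dens ρ) (h' : Dens ρ') (t : ℝ) :
    Integrable fun x => (1 - t) * (ρ x * Real.log (ρ x)) + t * (ρ' x * Real.log (ρ' x)) :=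
  (h.ent.const_mul (1 - t)).add (h'.ent.const_mul t)

theorem MX_int_low {ρ ρ' : ℂ → ℝ} (h : Dens ρ) (h' : Dens ρ') (t : ℝ) :
    Integrable fun x => (1 - t) * (ρ x * Real.log (ρ x)) + (1 - t) * Real.log (1 - t) * ρ x +
        (t * (ρ' x * Real.log (ρ' x)) + t * Real.log t * ρ' x) :=
  ((h.ent.const_mul (1 - t)).add (h.int.const_mul _)).add
    ((h'.ent.const_mul t).add (h'.int.const_mul _))

theorem MX_meas {ρ ρ' : ℂ → ℝ} (h : Dens ρ) (h' : Dens ρ') (t : ℝ) :
    Measurable (mix t ρ ρ') :=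
  (h.meas.const_mul (1 - t)).add (h'.meas.const_mul t)

theorem MX_ent {ρ ρ' : ℂ → ℝ} (h : Dens ρ) (h' : Dens ρ') {t : ℝ} (h0 : 0 ≤ t) (h1 : t ≤ 1) :
    Integrable fun x => mix t ρ ρ' x * Real.log (mix t ρ ρ' x) := by
  have hm : Measurable fun x => mix t ρ ρ' x * Real.log (mix t ρ ρ' x) :=
    (MX_meas h h' t).mul (Real.measurable_log.comp (MX_meas h h' t))
  refine Integrable.mono' ((MX_int_up h h' t).abs.add (MX_int_low h h' t).abs)
    hm.aestronglyMeasurable (Eventually.of_forall fun x => ?_)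
  have e1 := MX_upper (h.nonneg x) (h'.nonneg x) h0 h1
  have e2 := MX_lower (h.nonneg x) (h'.nonneg x) h0 h1
  simp only [Pi.add_apply, mix, Real.norm_eq_abs]
  set u := (1 - t) * (ρ x * Real.log (ρ x)) + t * (ρ' x * Real.log (ρ' x))
  set l := (1 - t) * (ρ x * Real.log (ρ x)) + (1 - t) * Real.log (1 - t) * ρ x +
        (t * (ρ' x * Real.log (ρ' x)) + t * Real.log t * ρ' x)
  set m := ((1 - t) * ρ x + t * ρ' x) * Real.log ((1 - t) * ρ x + t * ρ' x)
  have a1 := le_abs_self u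
  have a2 := neg_abs_le l
  have a3 := abs_nonneg u
  have a4 := abs_nonneg l
  exact abs_le.mpr ⟨by linarith, by linarith⟩

theorem MX_int {ρ ρ' : ℂ → ℝ} (h : Dens ρ) (h' : Dens ρ') (t : ℝ) :
    Integrable (mix t ρ ρ') :=
  (h.int.const_mul (1 - t)).add (h'.int.const_mul t)

theorem MX_one {ρ ρ' : ℂ → ℝ} (h : Dens ρ) (h' : Dens ρ') (t : ℝ) :
    ∫ x, mix t ρ ρ' x = 1 := by
  simp only [mix]
  rw [integral_add (h.int.const_mul (1 - t)) (h'.int.const_mul t), integral_const_mul,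
    integral_const_mul, h.one, h'.one]
  ring

theorem MX_mom_eq (ρ ρ' : ℂ → ℝ) (t : ℝ) : (fun x => ‖x‖ ^ 2 * mix t ρ ρ' x) =
    fun x => (1 - t) * (‖x‖ ^ 2 * ρ x) + t * (‖x‖ ^ 2 * ρ' x) := by
  funext x; simp only [mix]; ring

theorem MX_dens {ρ ρ' : ℂ → ℝ} (h : Dens ρ) (h' : Dens ρ') {t : ℝ} (h0 : 0 ≤ t) (h1 : t ≤ 1) :
    Dens (mix t ρ ρ') where
  meas := MX_meas h h' t
  nonneg x := add_nonneg (mul_nonneg (by linarith) (h.nonneg x)) (mul_nonneg h0 (h'.nonneg x))
  int := MX_int h h' t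
  one := MX_one h h' t
  ent := MX_ent h h' h0 h1
  mom := by
    rw [MX_mom_eq]
    exact (h.mom.const_mul (1 - t)).add (h'.mom.const_mul t)

theorem MX_mo {ρ ρ' : ℂ → ℝ} (h : Dens ρ) (h' : Dens ρ') (t : ℝ) :
    mo (mix t ρ ρ') = (1 - t) * mo ρ + t * mo ρ' := by
  unfold mo
  rw [MX_mom_eq, integral_add (h.mom.const_mul (1 - t)) (h'.mom.const_mul t),
    integral_const_mul, integral_const_mul]

/-- the first moment of a density is integrable -/
theorem MX_first {ρ : ℂ → ℝ} (h : Dens ρ) : Integrable fun x => (ρ x : ℂ) * x := by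
  have hm : AEStronglyMeasurable (fun x : ℂ => (ρ x : ℂ) * x) volume :=
    ((Complex.measurable_ofReal.comp h.meas).mul measurable_id).aestronglyMeasurable
  refine Integrable.mono' (h.int.add h.mom) hm (Eventually.of_forall fun x => ?_)
  simp only [norm_mul, Complex.norm_real, Real.norm_eq_abs, abs_of_nonneg (h.nonneg x),
    Pi.add_apply]
  nlinarith [h.nonneg x, norm_nonneg x, sq_nonneg (‖x‖ - 1),
    mul_nonneg (h.nonneg x) (sq_nonneg (‖x‖ - 1)), mul_nonneg (h.nonneg x) (sq_nonneg ‖x‖)]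

theorem MX_mean {ρ ρ' : ℂ → ℝ} (h : Dens ρ) (h' : Dens ρ') (t : ℝ) :
    mean (mix t ρ ρ') = (1 - t) * mean ρ + t * mean ρ' := by
  unfold mean
  have e : (fun x => (mix t ρ ρ' x : ℂ) * x) =
      fun x => (1 - (t : ℂ)) * ((ρ x : ℂ) * x) + (t : ℂ) * ((ρ' x : ℂ) * x) := by
    funext x; simp only [mix]; push_cast; ring
  rw [e, integral_add ((MX_first h).const_mul _) ((MX_first h').const_mul _),
    integral_const_mul, integral_const_mul]

theorem MX_combo {ρ ρ' : ℂ → ℝ} (h : Dens ρ) (h' : Dens ρ') (t : ℝ) :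
    (1 - t) * Sent ρ + t * Sent ρ' =
      -∫ x, ((1 - t) * (ρ x * Real.log (ρ x)) + t * (ρ' x * Real.log (ρ' x))) := by
  unfold Sent
  rw [integral_add (h.ent.const_mul (1 - t)) (h'.ent.const_mul t), integral_const_mul,
    integral_const_mul]
  ring

theorem MX_sent {ρ ρ' : ℂ → ℝ} (h : Dens ρ) (h' : Dens ρ') {t : ℝ} (h0 : 0 ≤ t) (h1 : t ≤ 1) :
    (1 - t) * Sent ρ + t * Sent ρ' ≤ Sent (mix t ρ ρ') := by
  rw [MX_combo h h']
  unfold Sent
  refine neg_le_neg (integral_mono (MX_ent h h' h0 h1) (MX_int_up h h' t) fun x => ?_)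
  exact MX_upper (h.nonneg x) (h'.nonneg x) h0 h1

theorem MX_strict {ρ ρ' : ℂ → ℝ} (h : Dens ρ) (h' : Dens ρ') {t : ℝ} (h0 : 0 < t) (h1 : t < 1)
    (hne : ¬ ρ =ᵐ[volume] ρ') : (1 - t) * Sent ρ + t * Sent ρ' < Sent (mix t ρ ρ') := by
  refine lt_of_le_of_ne (MX_sent h h' h0.le h1.le) fun heq => hne ?_
  rw [MX_combo h h'] at heq
  unfold Sent at heq
  have hI := MX_ent h h' h0.le h1.le
  have hU := MX_int_up h h' t
  have hz : ∫ x, ((1 - t) * (ρ x * Real.log (ρ x)) + t * (ρ' x * Real.log (ρ' x)) -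
      mix t ρ ρ' x * Real.log (mix t ρ ρ' x)) = 0 := by
    rw [integral_sub hU hI]
    linarith [neg_injective heq]
  have hnn : 0 ≤ fun x => (1 - t) * (ρ x * Real.log (ρ x)) + t * (ρ' x * Real.log (ρ' x)) -
      mix t ρ ρ' x * Real.log (mix t ρ ρ' x) := fun x => by
    have := MX_upper (h.nonneg x) (h'.nonneg x) h0.le h1.le
    simp only [Pi.zero_apply, mix, sub_nonneg]
    exact this
  have hae := (integral_eq_zero_iff_of_nonneg hnn (hU.sub hI)).mp hz
  filter_upwards [hae] with x hx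
  by_contra hab
  have := MX_upper_strict (h.nonneg x) (h'.nonneg x) h0 h1 hab
  simp only [Pi.zero_apply, mix] at hx
  linarith

end

end Pool.Agent.Lib_helper68.MC
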